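import Mathlib
import Pool.Agent.Lib.MP_a4e7db_lc.Ultra
import Pool.Agent.Lib.MP_a4e7db_lc.Transfer

/-!
There are no Laver ultrafilters in the random model.

`V` is the universe `Type u` of small types, the forcing extension by a complete Boolean algebra
`B` is the Boolean-valued model of `B`-names, and the measure algebra of `2^I` is the forcing
adding `I` random reals. If `#I > 2^ℵ₀` (for instance under CH and `#I = ℵ₂`), the Boolean value of
the sentence that there is a Laver ultrafilter is `⊥`: no condition forces it.

Proof idea: for every ground model `f` choose in the ultrafilter a set `y_f` which is sparse with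
respect to `f`. All these names are supported by a set `C` of at most `2^ℵ₀` coordinates. Colour
the natural numbers by the first `n` bits of fresh independent random reals. If `x` in the
ultrafilter takes at most `n + 1` colours for every `n`, then its conditional membership
probabilities over `C` tend to zero, so by Borel-Cantelli `x` is almost disjoint from some `y_f`.
-/

namespace Pool.Agent.Results.MP_a4e7db_lc.NoLaverRandom

open Pool.Agent.MPa4e7db Cardinal

universe u

theorem ext_subB_right {B : Type u} [CompleteBooleanAlgebra B] (x : BName B) :
    Ext (fun w => subB x w) :=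
  ext_iInf fun z => ext_himp (ext_const _) (ext_memB_right z)

theorem ext_isDiffB_mid {B : Type u} [CompleteBooleanAlgebra B] (z y : BName B) :
    Ext (fun w => isDiffB z w y) :=
  ext_iInf fun t => ext_iffB (ext_const _) (ext_inf (ext_memB_right t) (ext_const _))

theorem ext_isUltrafilterB {B : Type u} [CompleteBooleanAlgebra B] (U : BName B) :
    Ext (fun w => isUltrafilterB U w) := by
  refine ext_inf (ext_inf (ext_inf (ext_inf (ext_inf ?_ ?_) ?_) ?_) ?_) ?_
  · exact ext_iInf fun x => ext_himp (ext_const _) (ext_subB_right x)
  · exact ext_memB_left U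
  · exact ext_const _
  · exact ext_iInf fun x => ext_iInf fun y =>
      ext_himp (ext_inf (ext_const _) (ext_subB_right y)) (ext_const _)
  · exact ext_const _
  · exact ext_iInf fun x => ext_iInf fun y =>
      ext_himp (ext_inf (ext_subB_right x) (ext_isDiffB_mid y x)) (ext_const _)

theorem ext_isNonprincipalB {B : Type u} [CompleteBooleanAlgebra B] (U : BName B) :
    Ext (fun w => isNonprincipalB U w) :=
  ext_iInf fun n => ext_iInf fun _ =>
    ext_himp (ext_inf (ext_memB_right n) (ext_const _)) (ext_const _)

theorem ext_isPartitionB_right {B : Type u} [CompleteBooleanAlgebra B] (A : BName B) :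
    Ext (fun w => isPartitionB A w) := by
  refine ext_inf (ext_inf ?_ ?_) ?_
  · exact ext_iInf fun a => ext_himp (ext_const _) (ext_inf (ext_subB_right a) (ext_const _))
  · exact ext_const _
  · exact ext_iInf fun m => ext_himp (ext_memB_right m) (ext_const _)

theorem ext_isFiniteB_right {B : Type u} [CompleteBooleanAlgebra B] (A : BName B) :
    Ext (fun w => isFiniteB A w) :=
  ext_iSup fun k => ext_inf (ext_memB_right k) (ext_const _)

theorem ext_isPartitionSeqB {B : Type u} [CompleteBooleanAlgebra B] (P : BName B) :
    Ext (fun w => isPartitionSeqB P w) :=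
  ext_inf (ext_isFunOnB_right P) (ext_iInf fun _ => ext_iInf fun A =>
    ext_himp (ext_const _) (ext_inf (ext_isPartitionB_right A) (ext_isFiniteB_right A)))

theorem ext_isLaverUltrafilterB {B : Type u} [CompleteBooleanAlgebra B] (U : BName B) :
    Ext (fun w => isLaverUltrafilterB U w) :=
  ext_inf (ext_inf (ext_isUltrafilterB U) (ext_isNonprincipalB U))
    (ext_iInf fun P => ext_himp (ext_isPartitionSeqB P) (ext_const _))

/-- The hypotheses on `B` and `π` in `result` are satisfiable: the measure algebra exists. -/
theorem exists_measure_algebra (I : Type u) : ∃ (B : Type u) (_ : CompleteBooleanAlgebra B)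
    (π : {s : Set (I → Bool) // MeasurableSet s} → B), Function.Surjective π ∧
      ∀ s t, π s ≤ π t ↔ coinMeasure I ((s : Set (I → Bool)) \ (t : Set (I → Bool))) = 0 := by
  refine ⟨MeasureAlgebra (coinMeasure I), inferInstance, fun s => MeasureAlgebra.cls s.1 s.2,
    ?_, ?_⟩
  · intro a
    induction a using MeasureAlgebra.ind with | _ s hs =>
    exact ⟨⟨s, hs⟩, rfl⟩
  · intro s t
    rw [MeasureAlgebra.cls_le_cls]
    exact MeasureTheory.ae_le_set

/-- **No Laver ultrafilters in the random model.** Let `I` be a set with more than `2^ℵ₀` elements
(for instance `CH` holds and `I` has `ℵ₂` elements). Let `B` be the measure algebra of the product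
measure on `2^I`, that is, a complete Boolean algebra with a surjection `π` from the measurable
sets onto `B` such that `π s ≤ π t` iff `s \ t` is null. In the Boolean-valued model `V^B`, the
Boolean value of the sentence that there is a Laver ultrafilter is `⊥`. -/
theorem result (I : Type u) (hI : continuum.{u} < #I) (B : Type u) [CompleteBooleanAlgebra B]
    (π : {s : Set (I → Bool) // MeasurableSet s} → B) (hsurj : Function.Surjective π)
    (hle : ∀ s t, π s ≤ π t ↔ coinMeasure I ((s : Set (I → Bool)) \ (t : Set (I → Bool))) = 0) :
    laverUltrafilterExists B = ⊥ := by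
  rw [eq_bot_iff, laverUltrafilterExists]
  refine iSup_le fun w => ?_
  rw [inf_iSup_eq]
  refine iSup_le fun U => ?_
  rw [isOmegaB_eq]
  have h1 : eqB w omegaN ⊓ isLaverUltrafilterB U w ≤ isLaverUltrafilterB U omegaN :=
    (ext_isLaverUltrafilterB U).subst inf_le_left inf_le_right
  refine h1.trans ?_
  by_contra hne
  have hb : isLaverUltrafilterB U (omegaN : BName B) ≠ ⊥ := fun h => hne h.le
  set b : B := isLaverUltrafilterB U omegaN with hbdef
  have hu : b ≤ isUltrafilterB U omegaN := inf_le_left.trans inf_le_left
  have hn : b ≤ isNonprincipalB U omegaN := inf_le_left.trans inf_le_right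
  refine core_iso hI (toIso π hsurj hle) (fun x => memB (setN x) U) b hb ?_ ?_ ?_
  · intro p x y hp hx hy
    exact uf_inter hu hp hx hy
  · intro p x hp hx k
    exact uf_infinite hu hn hp hx k
  · intro J _ c hdisj hcov
    exact laver_extract le_rfl hdisj hcov

end Pool.Agent.Results.MP_a4e7db_lc.NoLaverRandom
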